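import Mathlib

/-!
# Linear algebra
-/

set_option autoImplicit false

open Matrix Module

namespace Pool.Agent.H936.Z

/-- independent functionals have dual vectors -/
theorem dual_vec {E : Type} [AddCommGroup E] [Module ℂ E] [FiniteDimensional ℂ E] {t : ℕ} {f : Fin t → Dual ℂ E}
    (hf : LinearIndependent ℂ f) : ∃ Y : Fin t → E, ∀ r j, f r (Y j) = if r = j then 1 else 0 := by
  classical
  have hs : LinearMap.range (LinearMap.pi f) = ⊤ := by
    by_contra hne
    obtain ⟨φ, hφ0, hφ⟩ := Submodule.exists_le_ker_of_lt_top _ (lt_top_iff_ne_top.2 hne)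
    apply hφ0
    have h1 : ∀ x : E, φ (fun r => f r x) = 0 := fun x => hφ (LinearMap.mem_range.2 ⟨x, rfl⟩)
    have h2 : ∀ v : Fin t → ℂ, φ v = ∑ r, v r * φ (Pi.single r 1) := by
      intro v
      conv_lhs => rw [← Finset.univ_sum_single v]
      rw [map_sum]
      refine Finset.sum_congr rfl fun r _ => ?_
      have h3 : (Pi.single r (v r) : Fin t → ℂ) = v r • Pi.single r 1 := by
        rw [← Pi.single_smul, smul_eq_mul, mul_one]
      rw [h3, map_smul, smul_eq_mul]
    have h3 : ∑ r, φ (Pi.single r 1) • f r = 0 := by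
      ext x
      rw [LinearMap.sum_apply, LinearMap.zero_apply, ← h1 x, h2]
      refine Finset.sum_congr rfl fun r _ => ?_
      rw [LinearMap.smul_apply, smul_eq_mul, mul_comm]
    have h4 := Fintype.linearIndependent_iff.1 hf _ h3
    refine LinearMap.ext fun v => ?_
    rw [h2, LinearMap.zero_apply]
    exact Finset.sum_eq_zero fun r _ => by rw [h4, mul_zero]
  have h1 : ∀ j, ∃ y, LinearMap.pi f y = Pi.single j 1 := fun j => by
    have : Pi.single j 1 ∈ LinearMap.range (LinearMap.pi f) := by rw [hs]; trivial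
    exact this
  choose Y hY using h1
  refine ⟨Y, fun r j => ?_⟩
  have h2 := congrFun (hY j) r
  rw [LinearMap.pi_apply, Pi.single_apply] at h2
  exact h2

/-- many independent equations -/
theorem pick {E : Type} [AddCommGroup E] [Module ℂ E] [FiniteDimensional ℂ E] {T V : Submodule ℂ E} {L : Set (Dual ℂ E)}
    (hV : ∀ y, y ∈ V ↔ y ∈ T ∧ ∀ c ∈ L, c y = 0) {s : ℕ} (h : finrank ℂ V + s < finrank ℂ T) :
    ∃ (c : Fin (s + 1) → Dual ℂ E) (Y : Fin (s + 1) → E), (∀ r, c r ∈ L) ∧ (∀ j, Y j ∈ T) ∧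
      ∀ r j, c r (Y j) = if r = j then 1 else 0 := by
  classical
  set L' : Set (Dual ℂ T) := T.subtype.dualMap '' L with hL'
  set M : Submodule ℂ (Dual ℂ T) := Submodule.span ℂ L' with hM
  have h1 : M.dualCoannihilator = V.comap T.subtype := by
    ext y
    rw [Submodule.mem_dualCoannihilator, Submodule.mem_comap, hV]
    constructor
    · intro h1
      refine ⟨y.2, fun c hc => ?_⟩
      exact h1 _ (Submodule.subset_span ⟨c, hc, rfl⟩)
    · rintro ⟨-, h1⟩ φ hφ
      induction hφ using Submodule.span_induction with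
      | mem φ hφ =>
        obtain ⟨c, hc, rfl⟩ := hφ
        exact h1 c hc
      | zero => rfl
      | add a b _ _ ha hb => rw [LinearMap.add_apply, ha, hb, add_zero]
      | smul c a _ ha => rw [LinearMap.smul_apply, ha, smul_zero]
  have hVT : V ≤ T := fun y hy => ((hV y).1 hy).1
  have h2 : finrank ℂ (V.comap T.subtype) = finrank ℂ V := (Submodule.comapSubtypeEquivOfLe hVT).finrank_eq
  have h3 := Subspace.finrank_add_finrank_dualCoannihilator_eq M
  rw [h1, h2] at h3
  have h4 : s + 1 ≤ finrank ℂ M := by omega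
  obtain ⟨f, hf1, -, hf2⟩ := Submodule.exists_fun_fin_finrank_span_eq ℂ L'
  have hf3 : LinearIndependent ℂ (f ∘ Fin.castLE h4) := hf2.comp _ (Fin.castLE_injective h4)
  obtain ⟨Y, hY⟩ := dual_vec hf3
  choose c hc1 hc2 using fun r : Fin (s + 1) => hf1 (Fin.castLE h4 r)
  refine ⟨c, fun j => (Y j : E), hc1, fun j => (Y j).2, fun r j => ?_⟩
  rw [← hY r j, Function.comp_apply, ← hc2]
  rfl

/-! ### The Sylvester equation -/

/-- uniqueness -/
theorem syl_unique {g : ℕ} {F : Type} [Field F] {A B : Matrix (Fin g) (Fin g) F} (hco : IsCoprime A.charpoly B.charpoly)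
    {x : Matrix (Fin g) (Fin g) F} (h : A * x = x * B) : x = 0 := by
  have h1 : ∀ n : ℕ, A ^ n * x = x * B ^ n := by
    intro n
    induction n with
    | zero => rw [pow_zero, pow_zero, Matrix.one_mul, Matrix.mul_one]
    | succ n ih => rw [pow_succ, Matrix.mul_assoc, h, ← Matrix.mul_assoc, ih, Matrix.mul_assoc, ← pow_succ]
  have h2 : ∀ p : Polynomial F, Polynomial.aeval A p * x = x * Polynomial.aeval B p := by
    intro p
    rw [Polynomial.aeval_eq_sum_range, Polynomial.aeval_eq_sum_range, Finset.sum_mul, Finset.mul_sum]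
    refine Finset.sum_congr rfl fun i _ => ?_
    rw [Matrix.smul_mul, Matrix.mul_smul, h1]
  obtain ⟨a, b, hab⟩ := hco
  have h3 : Polynomial.aeval B (a * A.charpoly) = 1 := by
    have h4 := congrArg (Polynomial.aeval B) hab
    rw [map_add, map_one, map_mul (Polynomial.aeval B) b, Matrix.aeval_self_charpoly, mul_zero, add_zero] at h4
    exact h4
  calc x = x * Polynomial.aeval B (a * A.charpoly) := by rw [h3, Matrix.mul_one]
    _ = Polynomial.aeval A (a * A.charpoly) * x := (h2 _).symm
    _ = 0 := by rw [map_mul, Matrix.aeval_self_charpoly, mul_zero, Matrix.zero_mul]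

/-- the solution has entries in the field of the coefficients -/
theorem syl_mem {g : ℕ} {K : Subfield ℂ} {A B C x : Matrix (Fin g) (Fin g) ℂ} (hA : ∀ i j, A i j ∈ K) (hB : ∀ i j, B i j ∈ K)
    (hC : ∀ i j, C i j ∈ K) (hco : IsCoprime A.charpoly B.charpoly) (h : A * x - x * B = C) : ∀ i j, x i j ∈ K := by
  obtain ⟨π, hπ⟩ := LinearMap.exists_leftInverse_of_injective (Algebra.linearMap K ℂ) (by
    rw [LinearMap.ker_eq_bot]
    exact (algebraMap K ℂ).injective)
  have hπ1 : ∀ k : K, π (k : ℂ) = k := fun k => LinearMap.congr_fun hπ k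
  have hπ2 : ∀ (a : ℂ), a ∈ K → ∀ z : ℂ, ((π (a * z) : K) : ℂ) = a * ((π z : K) : ℂ) := by
    intro a ha z
    have h1 : a * z = (⟨a, ha⟩ : K) • z := rfl
    rw [h1, map_smul]
    rfl
  set x' : Matrix (Fin g) (Fin g) ℂ := x.map fun z => ((π z : K) : ℂ) with hx'
  have h1 : A * x' - x' * B = C := by
    ext i j
    have h2 := congrFun (congrFun h i) j
    rw [Matrix.sub_apply, Matrix.mul_apply, Matrix.mul_apply] at h2 ⊢
    have h3 := congrArg (fun z => ((π z : K) : ℂ)) h2
    have h4 : ((π (C i j) : K) : ℂ) = C i j := congrArg Subtype.val (hπ1 ⟨C i j, hC i j⟩)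
    rw [h4] at h3
    rw [← h3]
    show _ = ((π (∑ l, A i l * x l j - ∑ l, x i l * B l j) : K) : ℂ)
    rw [map_sub, map_sum, map_sum]
    push_cast
    congr 1
    · refine Finset.sum_congr rfl fun l _ => ?_
      rw [hπ2 _ (hA i l)]
      rfl
    · refine Finset.sum_congr rfl fun l _ => ?_
      rw [mul_comm (x i l), hπ2 _ (hB l j), mul_comm]
      rfl
  have h2 : A * (x - x') = (x - x') * B := by
    rw [Matrix.mul_sub, Matrix.sub_mul, ← sub_eq_zero]
    have h3 : A * x - A * x' - (x * B - x' * B) = (A * x - x * B) - (A * x' - x' * B) := by abel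
    rw [h3, h, h1, sub_self]
  have h3 := syl_unique hco h2
  intro i j
  have h4 : x = x' := sub_eq_zero.1 h3
  rw [h4, hx', Matrix.map_apply]
  exact (π (x i j)).2

end Pool.Agent.H936.Z
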