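import Pool.Agent.H936.Z.Lin
import Pool.Agent.H936.Z.Alg

/-!
# The uniform theorem on linear equations for the Harish-Chandra coordinates
-/

set_option autoImplicit false
set_option linter.unusedSectionVars false
set_option linter.unusedVariables false

open Matrix Module Filter PowerSeries

namespace Pool.Agent.H936.Z

open Pool.Agent.Y118.HV (Hv hh)
open Pool.Agent.Helper880_LF (spS mem_spS)
open Pool.Agent.H936.SL (Mn)
open Pool.Agent.H936.V (Pt Ag Bd Far)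
open Pool.Agent.H885 (InfT part GBaseU line lineM toMv)

variable {n N g m : ℕ}

/-- the uniform theorem for points -/
theorem uniP (N g q s e : ℕ) : ∃ E : ℕ, ∀ (𝔤 : Submodule ℂ (Fin N → Mn (2 * g) ℂ)) (C F : Fin N → Mn (2 * g) ℂ)
    (d : Pt 1 (2 * g) N), OKG q E 𝔤 C d → (∀ i, IsUnit (C i).det) → (∀ i, IsUnit (F i).det) → ∀ u : Fin s → ℂ,
    (∀ i a b, Ag e u (((F i)⁻¹ * C i) a b)) → ∀ y R : Fin N → Matrix (Fin g) (Fin g) ℂ,
    (∀ i, C i * Hv (d.Z 0 i) (d.b 0 i) * i₁ g ℂ * R i = F i * (i₁ g ℂ + i₂ g ℂ * y i)) →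
    ∀ c Y : Fin (s + 1) → Fin N → Matrix (Fin g) (Fin g) ℂ, (∀ r i a b, Ag e u (c r i a b)) → (∀ r, pair (c r) y = 0) →
    (∀ j, (fun i => F i * (i₂ g ℂ * Y j i * (i₁ g ℂ)ᵀ) * (F i)⁻¹) ∈ 𝔤) →
    ¬ ∀ r j, pair (c r) (Y j) = if r = j then 1 else 0 := by
  by_contra hcon
  simp only [not_exists, not_forall, not_not] at hcon
  choose 𝔤 C F d hd hC hF u hu y R hy c Y hc hcy hY hcY using hcon
  exact core (𝔤 := 𝔤) (C := C) (F := F) (d := d) hd hC hF u hu y R hy c Y hc hcy hY hcY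

/-- the tangent space in the coordinates of the frames -/
def Tan (𝔤 : Submodule ℂ (Fin N → Mn (2 * g) ℂ)) (F : Fin N → Mn (2 * g) ℂ) :
    Submodule ℂ (Fin N → Matrix (Fin g) (Fin g) ℂ) where
  carrier := {Y | (fun i => F i * (i₂ g ℂ * Y i * (i₁ g ℂ)ᵀ) * (F i)⁻¹) ∈ 𝔤}
  zero_mem' := by
    have h : (fun i => F i * (i₂ g ℂ * (0 : Fin N → Matrix (Fin g) (Fin g) ℂ) i * (i₁ g ℂ)ᵀ) * (F i)⁻¹) = 0 := by
      funext i
      rw [Pi.zero_apply, Matrix.mul_zero, Matrix.zero_mul, Matrix.mul_zero, Matrix.zero_mul]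
      rfl
    show _ ∈ 𝔤
    rw [h]
    exact Submodule.zero_mem _
  add_mem' {a b} ha hb := by
    have h : (fun i => F i * (i₂ g ℂ * (a + b) i * (i₁ g ℂ)ᵀ) * (F i)⁻¹) =
        (fun i => F i * (i₂ g ℂ * a i * (i₁ g ℂ)ᵀ) * (F i)⁻¹) + fun i => F i * (i₂ g ℂ * b i * (i₁ g ℂ)ᵀ) * (F i)⁻¹ := by
      funext i
      rw [Pi.add_apply, Pi.add_apply, Matrix.mul_add, Matrix.add_mul, Matrix.mul_add, Matrix.add_mul]
    show _ ∈ 𝔤
    rw [h]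
    exact Submodule.add_mem _ ha hb
  smul_mem' c a ha := by
    have h : (fun i => F i * (i₂ g ℂ * (c • a) i * (i₁ g ℂ)ᵀ) * (F i)⁻¹) =
        c • fun i => F i * (i₂ g ℂ * a i * (i₁ g ℂ)ᵀ) * (F i)⁻¹ := by
      funext i
      rw [Pi.smul_apply, Pi.smul_apply, Matrix.mul_smul, Matrix.smul_mul, Matrix.mul_smul, Matrix.smul_mul]
    show _ ∈ 𝔤
    rw [h]
    exact Submodule.smul_mem _ c ha

theorem mem_Tan {𝔤 : Submodule ℂ (Fin N → Mn (2 * g) ℂ)} {F : Fin N → Mn (2 * g) ℂ}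
    {Y : Fin N → Matrix (Fin g) (Fin g) ℂ} :
    Y ∈ Tan 𝔤 F ↔ (fun i => F i * (i₂ g ℂ * Y i * (i₁ g ℂ)ᵀ) * (F i)⁻¹) ∈ 𝔤 := Iff.rfl

/-- the functional -/
noncomputable def pairL (c : Fin N → Matrix (Fin g) (Fin g) ℂ) : Dual ℂ (Fin N → Matrix (Fin g) (Fin g) ℂ) where
  toFun y := pair c y
  map_add' y y' := by
    unfold pair
    simp only [Pi.add_apply, Matrix.add_apply, mul_add, Finset.sum_add_distrib]
  map_smul' a y := by
    unfold pair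
    simp only [Pi.smul_apply, Matrix.smul_apply, smul_eq_mul, RingHom.id_apply, Finset.mul_sum]
    refine Finset.sum_congr rfl fun i _ => Finset.sum_congr rfl fun a _ => Finset.sum_congr rfl fun b _ => by ring

theorem pairL_apply (c y : Fin N → Matrix (Fin g) (Fin g) ℂ) : pairL c y = pair c y := rfl

/-- **The uniform theorem.** -/
theorem uniT (g m N q s e : ℕ) : ∃ E : ℕ, ∀ (B : ℝ) (h w b₀ : ℕ), 1 ≤ B →
    (2 * B * ((h : ℝ) + w + 2)) ^ E ≤ (b₀ : ℝ) → ∀ (𝔤 : Submodule ℂ (Fin N → Mn (2 * g) ℂ)) (C : Fin N → Mn (2 * g) ℂ)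
    (b : Fin N → ℕ),
    (∀ j, b₀ ≤ b j ∧ b j ≤ b₀ + w) → (∀ i j, b i = b j ∨ Far m B h (b i) (b j)) →
    ∀ (T : Fin N → MvPolynomial (Fin m) ℤ)
      (A : Fin N → Fin m → Fin (2 * g) → Fin (2 * g) → MvPolynomial (Fin m) ℤ)
      (Z W : Fin N → Matrix (Fin (2 * g)) (Fin (2 * g)) (MvPowerSeries (Fin m) ℚ)) (a : Fin N → Fin m → ℤ),
    (∀ j, GBaseU (N := 1) q B (T j) (fun _ => A j) (fun _ => Z j) (fun _ => W j)) →
    (∀ j i, |a j i| ≤ h) → (∀ j, line (a j) (toMv (T j)) ≠ 0) →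
    (∀ X ∈ 𝔤, ∀ β,
      InfT (part b (fun j => lineM (a j) (Z j)) β) (fun j => if b j = β then (C j)⁻¹ * X j * C j else 0)) →
    (∀ i, IsUnit (C i).det) → ∀ F : Fin N → Mn (2 * g) ℂ, (∀ i, IsUnit (F i).det) → ∀ u : Fin s → ℂ,
    (∀ i a b, Ag e u (((F i)⁻¹ * C i) a b)) → ∀ y R : Fin N → Matrix (Fin g) (Fin g) ℂ,
    (∀ i, C i * Hv (lineM (a i) (Z i)) (b i) * i₁ g ℂ * R i = F i * (i₁ g ℂ + i₂ g ℂ * y i)) →
    ∀ (V : Submodule ℂ (Fin N → Matrix (Fin g) (Fin g) ℂ)) (L : Set (Fin N → Matrix (Fin g) (Fin g) ℂ)),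
    (∀ c ∈ L, ∀ i a b, Ag e u (c i a b)) → (∀ y, y ∈ V ↔ ∀ c ∈ L, pair c y = 0) → y ∈ V →
    finrank ℂ (Tan 𝔤 F) ≤ finrank ℂ (V ⊓ Tan 𝔤 F : Submodule ℂ (Fin N → Matrix (Fin g) (Fin g) ℂ)) + s := by
  obtain ⟨q', c', hpt⟩ := pt_ofG N m (2 * g) q
  obtain ⟨E, hE⟩ := uniP N g q' s e
  refine ⟨c' * E, fun B h w b₀ hB hbig 𝔤 C b hb hsep T A Z W a hF ha hTa hI hC F hFu u hu y R hy V L hL hV hyV => ?_⟩
  obtain ⟨p, hp1, hp2, hp3⟩ := hpt E B h w b₀ hB hbig 𝔤 C b hb hsep T A Z W a hF ha hTa hI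
  by_contra hcon
  rw [not_le] at hcon
  obtain ⟨c, Y, h1, h2, h3⟩ := pick (L := pairL '' L) (V := V ⊓ Tan 𝔤 F) (T := Tan 𝔤 F) (fun y => by
    rw [Submodule.mem_inf, hV, and_comm]
    refine and_congr_right fun _ => ?_
    constructor
    · rintro h1 _ ⟨c, hc, rfl⟩
      exact h1 c hc
    · intro h1 c hc
      exact h1 _ ⟨c, hc, rfl⟩) hcon
  choose c₀ hc1 hc2 using h1
  refine hE 𝔤 C F p hp1 hC hFu u hu y R (fun i => ?_) c₀ Y (fun r => hL _ (hc1 r))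
    (fun r => (hV y).1 hyV _ (hc1 r)) (fun j => h2 j) fun r j => ?_
  · rw [hp2, hp3]
    exact hy i
  · rw [← h3 r j, ← hc2]
    rfl

/-! ### Special points -/

/-- the symplectic Lie algebra in terms of the form on the dual space -/
theorem mem_sp {H X : Mn n ℂ} (hH : IsUnit H.det) : X ∈ spS H⁻¹ ↔ X * H + H * Xᵀ = 0 := by
  rw [mem_spS]
  have h1 : H * H⁻¹ = 1 := Matrix.mul_nonsing_inv _ hH
  have h2 : H⁻¹ * H = 1 := Matrix.nonsing_inv_mul _ hH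
  constructor
  · intro h
    have h3 : H * (Xᵀ * H⁻¹ + H⁻¹ * X) * H = H * Xᵀ * (H⁻¹ * H) + (H * H⁻¹) * X * H := by noncomm_ring
    rw [h, h1, h2, Matrix.mul_zero, Matrix.zero_mul, Matrix.mul_one, Matrix.one_mul] at h3
    rw [add_comm]
    exact h3.symm
  · intro h
    have h3 : H⁻¹ * (X * H + H * Xᵀ) * H⁻¹ = H⁻¹ * X * (H * H⁻¹) + (H⁻¹ * H) * Xᵀ * H⁻¹ := by noncomm_ring
    rw [h, h1, h2, Matrix.mul_zero, Matrix.zero_mul, Matrix.mul_one, Matrix.one_mul] at h3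
    rw [add_comm]
    exact h3.symm

end Pool.Agent.H936.Z
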