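import Pool.Agent.H936.Z.Fin

/-!
# Frames of points with complex multiplication
-/

set_option autoImplicit false
set_option linter.unusedSectionVars false
set_option linter.unusedVariables false

open Matrix Module

namespace Pool.Agent.H936.Z

open Pool.Agent.H936.SL (Mn)
open Pool.Agent.Y119.HY (cm cm_apply cm_mul cm_one cm_transpose cm_zero cm_add cm_neg cm_pow)

variable {g : ℕ}

/-- the two halves -/
def eqs (g : ℕ) : Fin g ⊕ Fin g ≃ Fin (2 * g) := finSumFinEquiv.trans (finCongr (two_mul g).symm)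

theorem eqs_inl (i : Fin g) : eqs g (Sum.inl i) = f₁ g i := rfl

theorem eqs_inr (i : Fin g) : eqs g (Sum.inr i) = f₂ g i := rfl

theorem split_one {F : Type} [CommRing F] : i₁ g F * (i₁ g F)ᵀ + i₂ g F * (i₂ g F)ᵀ = 1 := by
  ext a b
  have h : ∑ c : Fin (2 * g), (1 : Matrix (Fin (2 * g)) (Fin (2 * g)) F) a c *
      (1 : Matrix (Fin (2 * g)) (Fin (2 * g)) F) b c = (1 : Matrix (Fin (2 * g)) (Fin (2 * g)) F) a b := by
    simp [Matrix.one_apply]
  rw [Matrix.add_apply, Matrix.mul_apply, Matrix.mul_apply, ← h, ← Equiv.sum_comp (eqs g), Fintype.sum_sum_type]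
  rfl

/-- the entries of blocks -/
theorem blk_apply {F : Type} [CommRing F] (e : Matrix (Fin (2 * g)) (Fin (2 * g)) F) (i j : Fin g) :
    ((i₁ g F)ᵀ * e * i₁ g F) i j = e (f₁ g i) (f₁ g j) ∧ ((i₁ g F)ᵀ * e * i₂ g F) i j = e (f₁ g i) (f₂ g j) ∧
    ((i₂ g F)ᵀ * e * i₁ g F) i j = e (f₂ g i) (f₁ g j) ∧ ((i₂ g F)ᵀ * e * i₂ g F) i j = e (f₂ g i) (f₂ g j) := by
  have h1 : ∀ (a : Fin (2 * g)), ((i₁ g F)ᵀ * e) i a = e (f₁ g i) a := by
    intro a
    have h2 := congrFun (congrFun (mul_i₁ (g := g) eᵀ) a) i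
    rw [Matrix.submatrix_apply, Matrix.transpose_apply] at h2
    rw [← Matrix.transpose_apply ((i₁ g F)ᵀ * e), Matrix.transpose_mul, Matrix.transpose_transpose]
    exact h2
  have h1' : ∀ (a : Fin (2 * g)), ((i₂ g F)ᵀ * e) i a = e (f₂ g i) a := by
    intro a
    have h2 := congrFun (congrFun (mul_i₂ (g := g) eᵀ) a) i
    rw [Matrix.submatrix_apply, Matrix.transpose_apply] at h2
    rw [← Matrix.transpose_apply ((i₂ g F)ᵀ * e), Matrix.transpose_mul, Matrix.transpose_transpose]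
    exact h2
  refine ⟨?_, ?_, ?_, ?_⟩
  · rw [mul_i₁, Matrix.submatrix_apply]
    exact h1 _
  · rw [mul_i₂, Matrix.submatrix_apply]
    exact h1 _
  · rw [mul_i₁, Matrix.submatrix_apply]
    exact h1' _
  · rw [mul_i₂, Matrix.submatrix_apply]
    exact h1' _

theorem map_conj_mul {A B C : Type} [Fintype B] (M : Matrix A B ℂ) (M' : Matrix B C ℂ) :
    (M * M').map (starRingEnd ℂ) = M.map (starRingEnd ℂ) * M'.map (starRingEnd ℂ) := by
  ext i j
  rw [Matrix.map_apply, Matrix.mul_apply, Matrix.mul_apply, map_sum]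
  exact Finset.sum_congr rfl fun l _ => map_mul _ _ _

/-- **the frame of a point with complex multiplication is algebraic** -/
theorem frame_alg {K : Subfield ℂ} {C F : Mn (2 * g) ℂ} {α : Matrix (Fin (2 * g)) (Fin (2 * g)) ℚ} (hC : IsUnit C.det)
    (hF : IsUnit F.det) (hα : α.charpoly.Separable) (hK : ∀ i j, (C⁻¹ * cm α * C) i j ∈ K)
    (hst : ∀ i j, (C⁻¹ * cm α * C) (f₂ g i) (f₁ g j) = 0) {b S : Matrix (Fin g) (Fin g) ℂ}
    (hF1 : F * i₁ g ℂ = C * i₁ g ℂ) (hF2 : F * i₂ g ℂ = C * i₂ g ℂ + C * i₁ g ℂ * b)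
    (hS : (F * i₁ g ℂ).map (starRingEnd ℂ) = F * i₂ g ℂ * S) : ∀ i j, (F⁻¹ * C) i j ∈ K := by
  set e := C⁻¹ * cm α * C with he
  set e11 := (i₁ g ℂ)ᵀ * e * i₁ g ℂ with he11
  set e12 := (i₁ g ℂ)ᵀ * e * i₂ g ℂ with he12
  set e22 := (i₂ g ℂ)ᵀ * e * i₂ g ℂ with he22
  have h21 : (i₂ g ℂ)ᵀ * e * i₁ g ℂ = 0 := by
    ext i j
    rw [(blk_apply e i j).2.2.1]
    exact hst i j
  have hCe : C * e = cm α * C := by
    rw [he, ← Matrix.mul_assoc, ← Matrix.mul_assoc, Matrix.mul_nonsing_inv _ hC, Matrix.one_mul]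
  have hei1 : e * i₁ g ℂ = i₁ g ℂ * e11 := by
    calc e * i₁ g ℂ = (i₁ g ℂ * (i₁ g ℂ)ᵀ + i₂ g ℂ * (i₂ g ℂ)ᵀ) * (e * i₁ g ℂ) := by rw [split_one, Matrix.one_mul]
      _ = i₁ g ℂ * ((i₁ g ℂ)ᵀ * e * i₁ g ℂ) + i₂ g ℂ * ((i₂ g ℂ)ᵀ * e * i₁ g ℂ) := by
          rw [Matrix.add_mul]
          simp only [Matrix.mul_assoc]
      _ = _ := by rw [h21, Matrix.mul_zero, add_zero]
  have hei2 : e * i₂ g ℂ = i₁ g ℂ * e12 + i₂ g ℂ * e22 := by
    calc e * i₂ g ℂ = (i₁ g ℂ * (i₁ g ℂ)ᵀ + i₂ g ℂ * (i₂ g ℂ)ᵀ) * (e * i₂ g ℂ) := by rw [split_one, Matrix.one_mul]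
      _ = _ := by
          rw [Matrix.add_mul]
          simp only [he12, he22, Matrix.mul_assoc]
  have hconj : (cm α).map (starRingEnd ℂ) = cm α := by
    ext i j
    rw [Matrix.map_apply, cm_apply]
    exact map_ratCast _ _
  -- the complex conjugate space
  have h1 : cm α * (F * i₂ g ℂ * S) = F * i₂ g ℂ * S * e11.map (starRingEnd ℂ) := by
    have h2 : cm α * (F * i₁ g ℂ) = F * i₁ g ℂ * e11 := by
      rw [hF1]
      calc cm α * (C * i₁ g ℂ) = cm α * C * i₁ g ℂ := by rw [Matrix.mul_assoc]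
        _ = C * (e * i₁ g ℂ) := by rw [← hCe, Matrix.mul_assoc]
        _ = _ := by rw [hei1, Matrix.mul_assoc]
    have h3 := congrArg (fun M : Matrix (Fin (2 * g)) (Fin g) ℂ => M.map (starRingEnd ℂ)) h2
    simp only [map_conj_mul (cm α) (F * i₁ g ℂ), map_conj_mul (F * i₁ g ℂ) e11, hconj, hS] at h3
    exact h3
  have h2 : cm α * (F * i₂ g ℂ * S) = C * (i₁ g ℂ * (e12 + e11 * b) + i₂ g ℂ * e22) * S := by
    rw [hF2]
    calc cm α * ((C * i₂ g ℂ + C * i₁ g ℂ * b) * S) = (cm α * C) * (i₂ g ℂ + i₁ g ℂ * b) * S := by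
          simp only [Matrix.mul_add, Matrix.add_mul, Matrix.mul_assoc]
      _ = C * (e * i₂ g ℂ + e * i₁ g ℂ * b) * S := by
          rw [← hCe]
          simp only [Matrix.mul_add, Matrix.add_mul, Matrix.mul_assoc]
      _ = _ := by
          rw [hei1, hei2]
          simp only [Matrix.mul_add, Matrix.add_mul, Matrix.mul_assoc]
          abel
  have h3 : F * i₂ g ℂ * S * e11.map (starRingEnd ℂ) = C * ((i₂ g ℂ + i₁ g ℂ * b) * S * e11.map (starRingEnd ℂ)) := by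
    rw [hF2]
    simp only [Matrix.mul_add, Matrix.add_mul, Matrix.mul_assoc]
  have h4 : (i₁ g ℂ * (e12 + e11 * b) + i₂ g ℂ * e22) * S = (i₂ g ℂ + i₁ g ℂ * b) * S * e11.map (starRingEnd ℂ) := by
    have h5 : C * ((i₁ g ℂ * (e12 + e11 * b) + i₂ g ℂ * e22) * S) =
        C * ((i₂ g ℂ + i₁ g ℂ * b) * S * e11.map (starRingEnd ℂ)) := by
      rw [← Matrix.mul_assoc, ← h2, h1, h3]
    have h6 := congrArg (fun M : Matrix (Fin (2 * g)) (Fin g) ℂ => C⁻¹ * M) h5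
    simp only [← Matrix.mul_assoc C⁻¹ C, Matrix.nonsing_inv_mul _ hC, Matrix.one_mul] at h6
    exact h6
  have h5 : e22 * S = S * e11.map (starRingEnd ℂ) := by
    have h6 := congrArg (fun M => (i₂ g ℂ)ᵀ * M) h4
    simp only [Matrix.mul_add, Matrix.add_mul, ← Matrix.mul_assoc, i₂_i₁, i₂_i₂, Matrix.zero_mul, Matrix.one_mul, zero_add,
      add_zero] at h6
    exact h6
  have h6 : (e12 + e11 * b) * S = b * (e22 * S) := by
    have h7 := congrArg (fun M => (i₁ g ℂ)ᵀ * M) h4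
    simp only [Matrix.mul_add, Matrix.add_mul, ← Matrix.mul_assoc, i₁_i₁, i₁_i₂, Matrix.zero_mul, Matrix.one_mul, zero_add,
      add_zero] at h7
    rw [h5, ← Matrix.mul_assoc, ← h7, Matrix.add_mul]
  -- `S` is invertible
  have hS' : ∃ S' : Matrix (Fin g) (Fin g) ℂ, S * S' = 1 := by
    have h7 : (i₁ g ℂ)ᵀ * C⁻¹ * (C * i₁ g ℂ) = 1 := by
      calc (i₁ g ℂ)ᵀ * C⁻¹ * (C * i₁ g ℂ) = (i₁ g ℂ)ᵀ * (C⁻¹ * C) * i₁ g ℂ := by simp only [Matrix.mul_assoc]
        _ = 1 := by rw [Matrix.nonsing_inv_mul _ hC, Matrix.mul_one, i₁_i₁]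
    have h8 := congrArg (fun M : Matrix (Fin g) (Fin g) ℂ => M.map (starRingEnd ℂ)) h7
    simp only [map_conj_mul ((i₁ g ℂ)ᵀ * C⁻¹) (C * i₁ g ℂ)] at h8
    rw [← hF1, hS, ← Matrix.mul_assoc] at h8
    have h9 : (1 : Matrix (Fin g) (Fin g) ℂ).map (starRingEnd ℂ) = 1 := by
      rw [Matrix.map_one _ (map_zero _) (map_one _)]
    rw [h9] at h8
    exact ⟨_, mul_eq_one_comm.1 h8⟩
  obtain ⟨S', hS'⟩ := hS'
  have h7 : e11 * b - b * e22 = -e12 := by
    have h8 : (e12 + e11 * b) * (S * S') = b * e22 * (S * S') := by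
      rw [← Matrix.mul_assoc, h6]
      simp only [Matrix.mul_assoc]
    rw [hS', Matrix.mul_one, Matrix.mul_one] at h8
    rw [← h8]
    abel
  -- the eigenvalues
  have hco : IsCoprime e11.charpoly e22.charpoly := by
    have h8 : Matrix.reindex (eqs g).symm (eqs g).symm e = Matrix.fromBlocks e11 e12 0 e22 := by
      ext i j
      rw [Matrix.reindex_apply, Equiv.symm_symm, Matrix.submatrix_apply]
      rcases i with i | i <;> rcases j with j | j
      · rw [Matrix.fromBlocks_apply₁₁, he11, (blk_apply e i j).1]; rfl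
      · rw [Matrix.fromBlocks_apply₁₂, he12, (blk_apply e i j).2.1]; rfl
      · rw [Matrix.fromBlocks_apply₂₁]; exact hst i j
      · rw [Matrix.fromBlocks_apply₂₂, he22, (blk_apply e i j).2.2.2]; rfl
    have h9 : e.charpoly = e11.charpoly * e22.charpoly := by
      rw [← Matrix.charpoly_fromBlocks_zero₂₁, ← h8, Matrix.charpoly_reindex]
    have h10 : e.charpoly = α.charpoly.map (algebraMap ℚ ℂ) := by
      have h11 : e.charpoly = (cm α).charpoly := by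
        rw [he]
        exact Matrix.charpoly_units_conj' ((Matrix.isUnit_iff_isUnit_det _).2 hC).unit (cm α)
      have h14 : cm α = α.map (algebraMap ℚ ℂ) := by
        ext i j
        rw [cm_apply, Matrix.map_apply]
        rfl
      rw [h11, h14, Matrix.charpoly_map]
    have h11 : (e11.charpoly * e22.charpoly).Separable := by
      rw [← h9, h10]
      exact hα.map
    exact h11.isCoprime
  have hb : ∀ i j, b i j ∈ K := syl_mem (fun i j => by rw [he11, (blk_apply e i j).1]; exact hK _ _)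
    (fun i j => by rw [he22, (blk_apply e i j).2.2.2]; exact hK _ _)
    (fun i j => by
      rw [Matrix.neg_apply, he12, (blk_apply e i j).2.1]
      exact K.neg_mem (hK _ _)) hco h7
  -- the frame
  have hFC : F = C * (1 + i₁ g ℂ * b * (i₂ g ℂ)ᵀ) := by
    calc F = F * (i₁ g ℂ * (i₁ g ℂ)ᵀ + i₂ g ℂ * (i₂ g ℂ)ᵀ) := by rw [split_one, Matrix.mul_one]
      _ = (F * i₁ g ℂ) * (i₁ g ℂ)ᵀ + (F * i₂ g ℂ) * (i₂ g ℂ)ᵀ := by
          rw [Matrix.mul_add]
          simp only [Matrix.mul_assoc]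
      _ = C * (i₁ g ℂ * (i₁ g ℂ)ᵀ + i₂ g ℂ * (i₂ g ℂ)ᵀ) + C * (i₁ g ℂ * b * (i₂ g ℂ)ᵀ) := by
          rw [hF1, hF2]
          simp only [Matrix.mul_add, Matrix.add_mul, Matrix.mul_assoc]
          abel
      _ = _ := by rw [split_one, Matrix.mul_add]
  have hinv : F⁻¹ * C = 1 - i₁ g ℂ * b * (i₂ g ℂ)ᵀ := by
    have h8 : F * (1 - i₁ g ℂ * b * (i₂ g ℂ)ᵀ) = C := by
      have h9 : (i₁ g ℂ * b * (i₂ g ℂ)ᵀ) * (i₁ g ℂ * b * (i₂ g ℂ)ᵀ) = 0 := by
        calc (i₁ g ℂ * b * (i₂ g ℂ)ᵀ) * (i₁ g ℂ * b * (i₂ g ℂ)ᵀ) =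
            i₁ g ℂ * b * ((i₂ g ℂ)ᵀ * i₁ g ℂ) * b * (i₂ g ℂ)ᵀ := by simp only [Matrix.mul_assoc]
          _ = 0 := by rw [i₂_i₁, Matrix.mul_zero, Matrix.zero_mul, Matrix.zero_mul]
      conv_lhs => rw [hFC]
      rw [Matrix.mul_assoc, Matrix.mul_sub, Matrix.mul_one, Matrix.add_mul, Matrix.one_mul, h9, add_zero,
        add_sub_cancel_right, Matrix.mul_one]
    calc F⁻¹ * C = F⁻¹ * (F * (1 - i₁ g ℂ * b * (i₂ g ℂ)ᵀ)) := by rw [h8]
      _ = _ := by rw [← Matrix.mul_assoc, Matrix.nonsing_inv_mul _ hF, Matrix.one_mul]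
  intro i j
  rw [hinv, Matrix.sub_apply]
  refine K.sub_mem ?_ ?_
  · rw [Matrix.one_apply]
    split_ifs
    · exact K.one_mem
    · exact K.zero_mem
  · rw [Matrix.mul_apply]
    refine K.sum_mem fun l _ => K.mul_mem ?_ ?_
    · rw [Matrix.mul_apply]
      refine K.sum_mem fun l' _ => K.mul_mem ?_ (hb _ _)
      simp only [i₁, Matrix.submatrix_apply, Matrix.one_apply]
      split_ifs
      · exact K.one_mem
      · exact K.zero_mem
    · simp only [i₂, Matrix.transpose_apply, Matrix.submatrix_apply, Matrix.one_apply]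
      split_ifs
      · exact K.one_mem
      · exact K.zero_mem

end Pool.Agent.H936.Z
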