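import Pool.Agent.H936.X.Fin

/-!
# Linear equations for the Harish-Chandra coordinates, in the ultrapower
-/

set_option autoImplicit false
set_option linter.unusedSectionVars false
set_option linter.unusedVariables false

open Matrix Module Filter PowerSeries

namespace Pool.Agent.H936.Z

open Pool.Agent.Y118.HV (Hv hh)
open Pool.Agent.Helper880_LF (spS mem_spS)
open Pool.Agent.Helper880_LF.NB (gm gm_mul dm dm_mul)
open Pool.Agent.Y118.UL (mk mk_eq mk_eq_zero mk_ne_zero mk_surj ev_ge U)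
open Pool.Agent.H936.SL (Mn)
open Pool.Agent.H936.G (DD)
open Pool.Agent.Y120.GH (cx cx_mem Cw)
open Pool.Agent.H936.V (Pt ix fs_ix sn_ix Ag der_ag Bd der_bd Far)
open Pool.Agent.H885 (Sys InfT part hder_gen curveP fs sn GBaseU line lineM toMv line_size pow_absorb base_sysU)

variable {n N g m s : ℕ}

/-- the conditions on the points, for arbitrary Lie algebras of symmetries -/
structure OKG (q E : ℕ) (𝔤 : Submodule ℂ (Fin N → Mn n ℂ)) (C : Fin N → Mn n ℂ) (d : Pt 1 n N) : Prop where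
  one_le : 1 ≤ d.B
  sys : ∀ l j, Sys (N := 1) q d.B (d.T l j) (fun _ => d.A l j) (fun _ => d.Z l j) (fun _ => d.W l j)
  T_ne : ∀ l j, d.T l j ≠ 0
  ρ_pos : 0 < d.ρ
  mem : ∀ l j a b, cx (d.Z l j a b) ∈ Cw d.ρ
  b_mem : ∀ l j, d.b₀ ≤ d.b l j ∧ d.b l j ≤ d.b₀ + d.w
  sep : ∀ l j l' j', ¬ (l = l' ∧ d.b l j = d.b l' j') → 2 * d.ρ < |(d.b l j : ℝ) - d.b l' j'|
  big : (2 * d.B * ((d.w : ℝ) + d.ρ + 2)) ^ E ≤ (d.b₀ : ℝ)
  inf : ∀ l : Fin 1, ∀ X ∈ 𝔤, ∀ β,
    InfT (part (d.b l) (d.Z l) β) (fun j => if d.b l j = β then (C j)⁻¹ * X j * C j else 0)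

/-- **the points on lines**: uniform systems -/
theorem pt_ofG (N m n q : ℕ) : ∃ q' c : ℕ, ∀ (E : ℕ) (B : ℝ) (h w b₀ : ℕ), 1 ≤ B →
    (2 * B * ((h : ℝ) + w + 2)) ^ (c * E) ≤ (b₀ : ℝ) → ∀ (𝔤 : Submodule ℂ (Fin N → Mn n ℂ)) (C : Fin N → Mn n ℂ)
      (b : Fin N → ℕ),
    (∀ j, b₀ ≤ b j ∧ b j ≤ b₀ + w) → (∀ i j, b i = b j ∨ Far m B h (b i) (b j)) →
    ∀ (T : Fin N → MvPolynomial (Fin m) ℤ) (A : Fin N → Fin m → Fin n → Fin n → MvPolynomial (Fin m) ℤ)
      (Z W : Fin N → Matrix (Fin n) (Fin n) (MvPowerSeries (Fin m) ℚ)) (a : Fin N → Fin m → ℤ),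
    (∀ j, GBaseU (N := 1) q B (T j) (fun _ => A j) (fun _ => Z j) (fun _ => W j)) →
    (∀ j i, |a j i| ≤ h) → (∀ j, line (a j) (toMv (T j)) ≠ 0) →
    (∀ X ∈ 𝔤, ∀ β,
      InfT (part b (fun j => lineM (a j) (Z j)) β) (fun j => if b j = β then (C j)⁻¹ * X j * C j else 0)) →
    ∃ p : Pt 1 n N, OKG q' E 𝔤 C p ∧ (∀ j, p.Z 0 j = lineM (a j) (Z j)) ∧ ∀ j, p.b 0 j = b j := by
  classical
  obtain ⟨q', E₀, hbase⟩ := base_sysU m n 1 q
  obtain ⟨e₁, he₁⟩ := pow_absorb (c := (2 : ℝ) * (1 + 2 ^ m)) (by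
    have : (1 : ℝ) ≤ 2 ^ m := one_le_pow₀ (by norm_num)
    linarith)
  refine ⟨q', e₁ + E₀ + 1, fun E B h w b₀ hB hbig 𝔤 C b hb hsep T A Z W a hF ha hTa hI => ?_⟩
  set x : ℝ := 2 * B * ((h : ℝ) + w + 2) with hx
  have hh0 : (0 : ℝ) ≤ h := by positivity
  have hw0 : (0 : ℝ) ≤ w := by positivity
  have hx1 : (h : ℝ) + w + 2 ≤ x := by
    rw [hx]
    nlinarith
  have hx2 : 2 ≤ x := by linarith
  have hx3 : B * ((h : ℝ) + 2) ≤ x := by
    rw [hx]
    nlinarith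
  have hx4 : 2 * B * ((h : ℝ) + 2) ≤ x := by
    rw [hx]
    nlinarith
  have hbig' : (2 * (2 * B * ((h : ℝ) + 2)) ^ E₀ * ((w : ℝ) + 2 ^ m * (B * ((h : ℝ) + 2)) + 2)) ^ E ≤ (b₀ : ℝ) := by
    refine le_trans ?_ hbig
    rw [pow_mul]
    refine pow_le_pow_left₀ (by positivity) ?_ E
    have h1 : (2 * B * ((h : ℝ) + 2)) ^ E₀ ≤ x ^ E₀ := pow_le_pow_left₀ (by positivity) hx4 _
    have h2 : (w : ℝ) + 2 ^ m * (B * ((h : ℝ) + 2)) + 2 ≤ (1 + 2 ^ m) * x := by
      have h3 : (2 : ℝ) ^ m * (B * ((h : ℝ) + 2)) ≤ 2 ^ m * x := mul_le_mul_of_nonneg_left hx3 (by positivity)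
      linarith
    calc 2 * (2 * B * ((h : ℝ) + 2)) ^ E₀ * ((w : ℝ) + 2 ^ m * (B * ((h : ℝ) + 2)) + 2) ≤
        2 * x ^ E₀ * ((1 + 2 ^ m) * x) := by
          refine mul_le_mul (by linarith) h2 (by positivity) (by positivity)
      _ = (2 * (1 + 2 ^ m)) * (x ^ E₀ * x) := by ring
      _ ≤ x ^ e₁ * (x ^ E₀ * x) := mul_le_mul_of_nonneg_right (he₁ x hx2) (by positivity)
      _ = x ^ (e₁ + E₀ + 1) := by ring
  have h1 : ∀ j, ∃ (T' : Polynomial ℤ) (B' : Fin n → Fin n → Polynomial ℤ), T' ≠ 0 ∧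
      Sys (N := 1) q' ((2 * B * ((h : ℝ) + 2)) ^ E₀) T' (fun _ => B')
        (fun _ => lineM (a j) (Z j)) (fun _ => lineM (a j) (W j)) := by
    intro j
    obtain ⟨T', B', hT', hS'⟩ := hbase B (T j) (fun _ => A j) (fun _ => Z j) (fun _ => W j) (hF j) h
      (fun _ => a j) (fun _ => ha j) (fun _ => hTa j)
    have h2 : B' = fun _ => B' 0 := funext fun i => by rw [Subsingleton.elim i 0]
    rw [h2] at hS'
    exact ⟨T', B' 0, hT', hS'⟩
  choose T' B' hT' hS' using h1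
  refine ⟨⟨(2 * B * ((h : ℝ) + 2)) ^ E₀, fun _ => T', fun _ => B', fun _ j => lineM (a j) (Z j),
    fun _ j => lineM (a j) (W j), 2 ^ m * (B * ((h : ℝ) + 2)), w, b₀, fun _ => b⟩, ⟨one_le_pow₀ (by nlinarith),
    fun _ => hS', fun _ => hT', by positivity, fun _ j a' b' => ?_, fun _ => hb,
    fun l j l' j' hne => ?_, hbig', fun _ => hI⟩, fun j => rfl, fun j => rfl⟩
  · exact cx_mem (by positivity) (line_size hB ((hF j).size 0 a' b') (ha j))
  · refine lt_of_eq_of_lt ?_ ((hsep j j').resolve_left fun h2 => hne ⟨Subsingleton.elim _ _, h2⟩)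
    show 2 * (2 ^ m * (B * ((h : ℝ) + 2))) = 2 ^ (m + 1) * B * ((h : ℝ) + 2)
    ring

/-! ### rectangular matrices -/

section rect
variable {A B C : Type}

/-- sequences of rectangular matrices -/
noncomputable def gr (F : ℕ → Matrix A B ℂ) : Matrix A B (U ℂ) := Matrix.of fun i j => mk ℂ fun k => F k i j

theorem gr_apply (F : ℕ → Matrix A B ℂ) (i : A) (j : B) : gr F i j = mk ℂ fun k => F k i j := rfl

theorem gr_mul [Fintype B] (F : ℕ → Matrix A B ℂ) (G : ℕ → Matrix B C ℂ) : gr (fun k => F k * G k) = gr F * gr G := by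
  ext i j
  rw [Matrix.mul_apply, gr_apply]
  have h : (fun k => (F k * G k) i j) = ∑ l, (fun k => F k i l) * (fun k => G k l j) := by
    funext k
    rw [Finset.sum_apply, Matrix.mul_apply]
    rfl
  rw [h, map_sum]
  exact Finset.sum_congr rfl fun l _ => map_mul _ _ _

theorem gr_add (F G : ℕ → Matrix A B ℂ) : gr (fun k => F k + G k) = gr F + gr G := by
  ext i j
  exact map_add (mk ℂ) _ _

theorem gr_gm [Fintype A] (F : ℕ → Matrix A A ℂ) : gr F = gm F := rfl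

/-- derivatives of rectangular matrices -/
noncomputable def dr (δ : DD) (M : Matrix A B (U ℂ)) : Matrix A B (U ℂ) := M.map δ

theorem dr_apply (δ : DD) (M : Matrix A B (U ℂ)) (i : A) (j : B) : dr δ M i j = δ (M i j) := rfl

theorem dr_mul [Fintype B] (δ : DD) (M : Matrix A B (U ℂ)) (M' : Matrix B C (U ℂ)) :
    dr δ (M * M') = dr δ M * M' + M * dr δ M' := by
  ext i j
  rw [dr_apply, Matrix.mul_apply, map_sum, Matrix.add_apply, Matrix.mul_apply, Matrix.mul_apply, ← Finset.sum_add_distrib]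
  refine Finset.sum_congr rfl fun l _ => ?_
  rw [Derivation.leibniz, dr_apply, dr_apply, smul_eq_mul, smul_eq_mul]
  ring

theorem dr_add (δ : DD) (M M' : Matrix A B (U ℂ)) : dr δ (M + M') = dr δ M + dr δ M' := by
  ext i j
  exact map_add δ _ _

end rect

/-! ### the blocks -/

/-- the first half of the indices -/
def f₁ (g : ℕ) (i : Fin g) : Fin (2 * g) := ⟨i, by omega⟩

/-- the second half of the indices -/
def f₂ (g : ℕ) (i : Fin g) : Fin (2 * g) := ⟨g + i, by omega⟩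

theorem f₁_inj {i j : Fin g} (h : f₁ g i = f₁ g j) : i = j := by
  have h1 := Fin.mk.inj_iff.1 h
  exact Fin.ext h1

theorem f₂_inj {i j : Fin g} (h : f₂ g i = f₂ g j) : i = j := by
  have h1 := Fin.mk.inj_iff.1 h
  exact Fin.ext (by omega)

theorem f₁_ne {i j : Fin g} : f₁ g i ≠ f₂ g j := by
  intro h
  have h1 := Fin.mk.inj_iff.1 h
  have h2 := i.2
  omega

/-- the first block column of the identity matrix -/
def i₁ (g : ℕ) (F : Type) [Zero F] [One F] : Matrix (Fin (2 * g)) (Fin g) F := (1 : Matrix (Fin (2 * g)) (Fin (2 * g)) F).submatrix id (f₁ g)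

/-- the second block column of the identity matrix -/
def i₂ (g : ℕ) (F : Type) [Zero F] [One F] : Matrix (Fin (2 * g)) (Fin g) F := (1 : Matrix (Fin (2 * g)) (Fin (2 * g)) F).submatrix id (f₂ g)

theorem mul_i₁ {F : Type} [CommRing F] {A : Type} (M : Matrix A (Fin (2 * g)) F) : M * i₁ g F = M.submatrix id (f₁ g) := by
  ext a i
  simp [i₁, Matrix.mul_apply, Matrix.one_apply]

theorem mul_i₂ {F : Type} [CommRing F] {A : Type} (M : Matrix A (Fin (2 * g)) F) : M * i₂ g F = M.submatrix id (f₂ g) := by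
  ext a i
  simp [i₂, Matrix.mul_apply, Matrix.one_apply]

theorem i₁_i₁ {F : Type} [CommRing F] : (i₁ g F)ᵀ * i₁ g F = 1 := by
  rw [mul_i₁]
  ext a i
  simp only [Matrix.submatrix_apply, Matrix.transpose_apply, i₁, id, Matrix.one_apply]
  by_cases h : a = i
  · subst h
    simp
  · rw [if_neg h, if_neg fun h' => h (f₁_inj h').symm]

theorem i₁_i₂ {F : Type} [CommRing F] : (i₁ g F)ᵀ * i₂ g F = 0 := by
  rw [mul_i₂]
  ext a i
  simp only [Matrix.submatrix_apply, Matrix.transpose_apply, i₁, id, Matrix.one_apply, Matrix.zero_apply]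
  rw [if_neg fun h => f₁_ne h.symm]

theorem i₂_i₁ {F : Type} [CommRing F] : (i₂ g F)ᵀ * i₁ g F = 0 := by
  rw [mul_i₁]
  ext a i
  simp only [Matrix.submatrix_apply, Matrix.transpose_apply, i₂, id, Matrix.one_apply, Matrix.zero_apply]
  rw [if_neg f₁_ne]

theorem i₂_i₂ {F : Type} [CommRing F] : (i₂ g F)ᵀ * i₂ g F = 1 := by
  rw [mul_i₂]
  ext a i
  simp only [Matrix.submatrix_apply, Matrix.transpose_apply, i₂, id, Matrix.one_apply]
  by_cases h : a = i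
  · subst h
    simp
  · rw [if_neg h, if_neg fun h' => h (f₂_inj h').symm]

theorem gr_i₁ : gr (fun _ => i₁ g ℂ) = i₁ g (U ℂ) := by
  ext a i
  rw [gr_apply]
  simp only [i₁, Matrix.submatrix_apply, Matrix.one_apply]
  split_ifs
  · exact map_one (mk ℂ)
  · exact map_zero (mk ℂ)

theorem gr_i₂ : gr (fun _ => i₂ g ℂ) = i₂ g (U ℂ) := by
  ext a i
  rw [gr_apply]
  simp only [i₂, Matrix.submatrix_apply, Matrix.one_apply]
  split_ifs
  · exact map_one (mk ℂ)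
  · exact map_zero (mk ℂ)

theorem dr_i₁ (δ : DD) : dr δ (i₁ g (U ℂ)) = 0 := by
  ext a i
  rw [dr_apply]
  simp only [i₁, Matrix.submatrix_apply, Matrix.one_apply]
  split_ifs
  · rw [δ.map_one_eq_zero]; rfl
  · rw [map_zero]; rfl

theorem dr_i₂ (δ : DD) : dr δ (i₂ g (U ℂ)) = 0 := by
  ext a i
  rw [dr_apply]
  simp only [i₂, Matrix.submatrix_apply, Matrix.one_apply]
  split_ifs
  · rw [δ.map_one_eq_zero]; rfl
  · rw [map_zero]; rfl

/-- **the derivative of the coordinate** -/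
theorem coord {δ : DD} {ζ : Matrix (Fin (2 * g)) (Fin (2 * g)) (U ℂ)} {R y Y : Matrix (Fin g) (Fin g) (U ℂ)}
    (h : ζ * i₁ g (U ℂ) * R = i₁ g (U ℂ) + i₂ g (U ℂ) * y) (hδ : dr δ ζ = i₂ g (U ℂ) * Y * (i₁ g (U ℂ))ᵀ * ζ) :
    dr δ y = Y := by
  have h1 := congrArg (dr δ) h
  rw [dr_mul, dr_mul, dr_i₁, Matrix.mul_zero, add_zero, dr_add, dr_i₁, zero_add, dr_mul, dr_i₂, Matrix.zero_mul, zero_add,
    hδ] at h1
  have h2 : i₂ g (U ℂ) * Y * (i₁ g (U ℂ))ᵀ * ζ * i₁ g (U ℂ) * R = i₂ g (U ℂ) * Y := by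
    calc i₂ g (U ℂ) * Y * (i₁ g (U ℂ))ᵀ * ζ * i₁ g (U ℂ) * R = i₂ g (U ℂ) * Y * (i₁ g (U ℂ))ᵀ * (ζ * i₁ g (U ℂ) * R) := by
          simp only [Matrix.mul_assoc]
      _ = i₂ g (U ℂ) * Y * ((i₁ g (U ℂ))ᵀ * i₁ g (U ℂ)) + i₂ g (U ℂ) * Y * ((i₁ g (U ℂ))ᵀ * i₂ g (U ℂ)) * y := by
          rw [h, Matrix.mul_add]
          simp only [Matrix.mul_assoc]
      _ = _ := by rw [i₁_i₁, i₁_i₂, Matrix.mul_one, Matrix.mul_zero, Matrix.zero_mul, add_zero]
  rw [h2] at h1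
  have h3 : (i₁ g (U ℂ))ᵀ * ζ * i₁ g (U ℂ) * R = 1 := by
    calc (i₁ g (U ℂ))ᵀ * ζ * i₁ g (U ℂ) * R = (i₁ g (U ℂ))ᵀ * (ζ * i₁ g (U ℂ) * R) := by simp only [Matrix.mul_assoc]
      _ = (i₁ g (U ℂ))ᵀ * i₁ g (U ℂ) + ((i₁ g (U ℂ))ᵀ * i₂ g (U ℂ)) * y := by
          rw [h, Matrix.mul_add]
          simp only [Matrix.mul_assoc]
      _ = 1 := by rw [i₁_i₁, i₁_i₂, Matrix.zero_mul, add_zero]
  have h4 : (i₁ g (U ℂ))ᵀ * ζ * i₁ g (U ℂ) * dr δ R = 0 := by
    have h5 := congrArg (fun M => (i₁ g (U ℂ))ᵀ * M) h1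
    simp only [Matrix.mul_add] at h5
    have h6 : (i₁ g (U ℂ))ᵀ * (i₂ g (U ℂ) * Y) = 0 := by rw [← Matrix.mul_assoc, i₁_i₂, Matrix.zero_mul]
    have h7 : (i₁ g (U ℂ))ᵀ * (i₂ g (U ℂ) * dr δ y) = 0 := by rw [← Matrix.mul_assoc, i₁_i₂, Matrix.zero_mul]
    rw [h6, h7, zero_add] at h5
    rw [← h5]
    simp only [Matrix.mul_assoc]
  have h5 : R * ((i₁ g (U ℂ))ᵀ * ζ * i₁ g (U ℂ)) = 1 := mul_eq_one_comm.1 h3
  have h6 : dr δ R = 0 := by
    calc dr δ R = R * ((i₁ g (U ℂ))ᵀ * ζ * i₁ g (U ℂ)) * dr δ R := by rw [h5, Matrix.one_mul]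
      _ = 0 := by rw [Matrix.mul_assoc, h4, Matrix.mul_zero]
  rw [h6, Matrix.mul_zero, add_zero] at h1
  have h7 := congrArg (fun M => (i₂ g (U ℂ))ᵀ * M) h1
  simp only [← Matrix.mul_assoc, i₂_i₂, Matrix.one_mul] at h7
  exact h7.symm

/-- **the derivations** which move all the points -/
theorem der_all {q : ℕ} {C : ℕ → Fin N → Mn n ℂ} {𝔤 : ℕ → Submodule ℂ (Fin N → Mn n ℂ)} {d : ℕ → Pt 1 n N}
    (hd : ∀ k, OKG q k (𝔤 k) (C k) (d k)) {G : ℕ → Fin N → Mn n ℂ} (hG : ∀ k, G k ∈ 𝔤 k) : ∃ δ : DD, ∀ i,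
      dm δ (gm fun k => Hv ((d k).Z 0 i) ((d k).b 0 i)) =
        gm (fun k => (C k i)⁻¹ * G k i * C k i) * (gm fun k => Hv ((d k).Z 0 i) ((d k).b 0 i)) := by
  classical
  set Y : ℕ → Fin 1 → Fin N → Mn n ℂ := fun k l j => G k j with hY
  have hYs : ∀ k l, Y k l ∈ 𝔤 k := fun k l => hG k
  obtain ⟨δ, hδ⟩ := hder_gen (z := fun k (i : Fin (1 * N)) => (d k).z i)
    (X := fun k i => (C k (sn i))⁻¹ * Y k (fs i) (sn i) * C k (sn i))
    (fun e' => by
      obtain ⟨E, hE⟩ := curveP 1 N n q e'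
      filter_upwards [ev_ge E] with k hk P hPd hP s
      have hH := (hd k).one_le
      have hw0 : (0 : ℝ) ≤ (d k).w := by positivity
      have hρ := (hd k).ρ_pos
      refine hE (d k).B hH (d k).T (d k).A (d k).Z (d k).W (hd k).sys (hd k).T_ne (d k).ρ hρ (hd k).mem (d k).w (d k).b₀
        (d k).b (hd k).b_mem (hd k).sep ((pow_le_pow_right₀ (by nlinarith) hk).trans (hd k).big)
        (fun l j => (C k j)⁻¹ * Y k l j * C k j)
        (fun l' β => (hd k).inf l' (Y k l') (hYs k l') β) P hPd hP s)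
  refine ⟨δ, fun j => ?_⟩
  have h1 := hδ (ix 0 j)
  simp only [Pt.z_ix, fs_ix, sn_ix] at h1
  rw [← gm_mul]
  exact h1

/-- the sum of the products of the entries -/
noncomputable def pair {F : Type} [CommRing F] (c y : Fin N → Matrix (Fin g) (Fin g) F) : F :=
  ∑ i, ∑ a, ∑ b, c i a b * y i a b

/-- **the core** -/
theorem core {q e : ℕ} {𝔤 : ℕ → Submodule ℂ (Fin N → Mn (2 * g) ℂ)} {C F : ℕ → Fin N → Mn (2 * g) ℂ}
    {d : ℕ → Pt 1 (2 * g) N} (hd : ∀ k, OKG q k (𝔤 k) (C k) (d k)) (hC : ∀ k i, IsUnit (C k i).det) (hF : ∀ k i, IsUnit (F k i).det)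
    (u : ℕ → Fin s → ℂ) (hu : ∀ k i a b, Ag e (u k) (((F k i)⁻¹ * C k i) a b))
    (y R : ℕ → Fin N → Matrix (Fin g) (Fin g) ℂ)
    (hy : ∀ k i, C k i * Hv ((d k).Z 0 i) ((d k).b 0 i) * i₁ g ℂ * R k i = F k i * (i₁ g ℂ + i₂ g ℂ * y k i))
    (c Y : ℕ → Fin (s + 1) → Fin N → Matrix (Fin g) (Fin g) ℂ) (hc : ∀ k r i a b, Ag e (u k) (c k r i a b))
    (hcy : ∀ k r, pair (c k r) (y k) = 0)
    (hY : ∀ k j, (fun i => F k i * (i₂ g ℂ * Y k j i * (i₁ g ℂ)ᵀ) * (F k i)⁻¹) ∈ 𝔤 k)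
    (hcY : ∀ k r j, pair (c k r) (Y k j) = if r = j then 1 else 0) : False := by
  classical
  choose δj hδj using fun j : Fin (s + 1) => der_all hd (G := fun k i => F k i * (i₂ g ℂ * Y k j i * (i₁ g ℂ)ᵀ) * (F k i)⁻¹)
    (fun k => hY k j)
  -- a combination which kills `u`
  let Λ : (Fin (s + 1) → U ℂ) →ₗ[U ℂ] (Fin s → U ℂ) :=
    { toFun := fun l i => ∑ j, l j * δj j (mk ℂ fun k => u k i)
      map_add' := fun a b => by
        funext i
        simp only [Pi.add_apply, add_mul, Finset.sum_add_distrib]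
      map_smul' := fun c a => by
        funext i
        simp only [Pi.smul_apply, smul_eq_mul, RingHom.id_apply, Finset.mul_sum, mul_assoc] }
  have hker : LinearMap.ker Λ ≠ ⊥ := by
    apply LinearMap.ker_ne_bot_of_finrank_lt
    rw [Module.finrank_fin_fun, Module.finrank_fin_fun]
    omega
  obtain ⟨l, hl, hl0⟩ := Submodule.exists_mem_ne_zero_of_ne_bot hker
  have hl' : ∀ i, ∑ j, l j * δj j (mk ℂ fun k => u k i) = 0 := fun i => congrFun (LinearMap.mem_ker.1 hl) i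
  set δ : DD := ∑ j, l j • δj j with hδ
  have hδa : ∀ x, δ x = ∑ j, l j * δj j x := by
    intro x
    let ev : DD →ₗ[U ℂ] U ℂ := { toFun := fun d => d x, map_add' := fun _ _ => rfl, map_smul' := fun _ _ => rfl }
    have h1 : ev (∑ j, l j • δj j) = ∑ j, ev (l j • δj j) := map_sum ev _ _
    exact h1
  have hδu : ∀ i, δ (mk ℂ fun k => u k i) = 0 := fun i => by rw [hδa]; exact hl' i
  set Y' : Fin N → Matrix (Fin g) (Fin g) (U ℂ) := fun i => ∑ j, l j • gr fun k => Y k j i with hY'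
  have hyY : ∀ i, dr δ (gr fun k => y k i) = Y' i := by
    intro i
    refine coord (ζ := gr fun k => (F k i)⁻¹ * C k i * Hv ((d k).Z 0 i) ((d k).b 0 i)) (R := gr fun k => R k i) ?_ ?_
    · rw [← gr_i₁, ← gr_i₂, ← gr_mul, ← gr_mul, ← gr_mul, ← gr_add]
      congr 1
      funext k
      calc (F k i)⁻¹ * C k i * Hv ((d k).Z 0 i) ((d k).b 0 i) * i₁ g ℂ * R k i =
          (F k i)⁻¹ * (C k i * Hv ((d k).Z 0 i) ((d k).b 0 i) * i₁ g ℂ * R k i) := by simp only [Matrix.mul_assoc]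
        _ = (F k i)⁻¹ * F k i * (i₁ g ℂ + i₂ g ℂ * y k i) := by rw [hy, Matrix.mul_assoc]
        _ = _ := by rw [Matrix.nonsing_inv_mul _ (hF k i), Matrix.one_mul]
    · have h1 : gr (fun k => (F k i)⁻¹ * C k i * Hv ((d k).Z 0 i) ((d k).b 0 i)) =
          gr (fun k => (F k i)⁻¹ * C k i) * gr fun k => Hv ((d k).Z 0 i) ((d k).b 0 i) := gr_mul _ _
      have h2 : dr δ (gr fun k => (F k i)⁻¹ * C k i) = 0 := by
        ext a b
        exact der_ag (fun k => hu k i a b) hδu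
      have h3 : dr δ (gr fun k => Hv ((d k).Z 0 i) ((d k).b 0 i)) =
          ∑ j, l j • (gr (fun k => (C k i)⁻¹ * (F k i * (i₂ g ℂ * Y k j i * (i₁ g ℂ)ᵀ) * (F k i)⁻¹) * C k i) *
            gr fun k => Hv ((d k).Z 0 i) ((d k).b 0 i)) := by
        ext a b
        rw [dr_apply, hδa, Matrix.sum_apply]
        refine Finset.sum_congr rfl fun j _ => ?_
        rw [Matrix.smul_apply, smul_eq_mul]
        congr 1
        exact congrFun (congrFun (hδj j i) a) b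
      have h4 : ∀ j, gr (fun k => (F k i)⁻¹ * C k i) *
          (gr (fun k => (C k i)⁻¹ * (F k i * (i₂ g ℂ * Y k j i * (i₁ g ℂ)ᵀ) * (F k i)⁻¹) * C k i) *
            gr fun k => Hv ((d k).Z 0 i) ((d k).b 0 i)) =
          i₂ g (U ℂ) * gr (fun k => Y k j i) * (i₁ g (U ℂ))ᵀ *
            gr fun k => (F k i)⁻¹ * C k i * Hv ((d k).Z 0 i) ((d k).b 0 i) := by
        intro j
        have h5 : (i₁ g (U ℂ))ᵀ = gr fun _ => (i₁ g ℂ)ᵀ := by
          rw [← gr_i₁]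
          rfl
        rw [h5, ← gr_i₂, ← gr_mul, ← gr_mul, ← gr_mul, ← gr_mul, ← gr_mul]
        congr 1
        funext k
        calc (F k i)⁻¹ * C k i * ((C k i)⁻¹ * (F k i * (i₂ g ℂ * Y k j i * (i₁ g ℂ)ᵀ) * (F k i)⁻¹) * C k i *
              Hv ((d k).Z 0 i) ((d k).b 0 i)) =
            (F k i)⁻¹ * (C k i * (C k i)⁻¹) * F k i * (i₂ g ℂ * Y k j i * (i₁ g ℂ)ᵀ) * (F k i)⁻¹ * C k i *
              Hv ((d k).Z 0 i) ((d k).b 0 i) := by simp only [Matrix.mul_assoc]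
          _ = _ := by
            rw [Matrix.mul_nonsing_inv _ (hC k i), Matrix.mul_one, Matrix.nonsing_inv_mul _ (hF k i), Matrix.one_mul]
            simp only [Matrix.mul_assoc]
      rw [h1, dr_mul, h2, Matrix.zero_mul, zero_add, h3, Matrix.mul_sum]
      rw [hY']
      simp only [Matrix.mul_smul, h4, Matrix.mul_sum, Matrix.sum_mul, Matrix.smul_mul, h1]
  -- the linear equations
  have hfin : ∀ r, l r = 0 := by
    intro r
    have h1 : ∑ i, ∑ a, ∑ b, (mk ℂ fun k => c k r i a b) * (mk ℂ fun k => y k i a b) = 0 := by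
      have h2 : (fun k => pair (c k r) (y k)) = ∑ i, ∑ a, ∑ b, (fun k => c k r i a b) * fun k => y k i a b := by
        funext k
        simp only [pair, Finset.sum_apply, Pi.mul_apply]
      have h3 : mk ℂ (fun k => pair (c k r) (y k)) = 0 := by
        rw [mk_eq_zero]
        exact Filter.Eventually.of_forall fun k => hcy k r
      rw [h2] at h3
      simpa only [map_sum, map_mul] using h3
    have h4 : ∀ i a b, δ (mk ℂ fun k => c k r i a b) = 0 := fun i a b => der_ag (fun k => hc k r i a b) hδu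
    have h5 : ∑ i, ∑ a, ∑ b, (mk ℂ fun k => c k r i a b) * Y' i a b = 0 := by
      have h6 := congrArg δ h1
      rw [map_zero] at h6
      rw [← h6, map_sum]
      refine Finset.sum_congr rfl fun i _ => ?_
      rw [map_sum]
      refine Finset.sum_congr rfl fun a _ => ?_
      rw [map_sum]
      refine Finset.sum_congr rfl fun b _ => ?_
      rw [Derivation.leibniz, h4, smul_zero, add_zero, smul_eq_mul, ← hyY]
      rfl
    have h7 : ∑ i, ∑ a, ∑ b, (mk ℂ fun k => c k r i a b) * Y' i a b =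
        ∑ j, l j * ∑ i, ∑ a, ∑ b, (mk ℂ fun k => c k r i a b) * (mk ℂ fun k => Y k j i a b) := by
      have h8 : ∀ i a b, Y' i a b = ∑ j, l j * mk ℂ fun k => Y k j i a b := by
        intro i a b
        rw [hY']
        simp only [Matrix.sum_apply, Matrix.smul_apply, smul_eq_mul, gr_apply]
      simp only [h8, Finset.mul_sum]
      have e1 : ∀ i a, ∑ b, ∑ j, (mk ℂ fun k => c k r i a b) * (l j * mk ℂ fun k => Y k j i a b) =
          ∑ j, ∑ b, l j * ((mk ℂ fun k => c k r i a b) * mk ℂ fun k => Y k j i a b) := by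
        intro i a
        rw [Finset.sum_comm]
        refine Finset.sum_congr rfl fun j _ => Finset.sum_congr rfl fun b _ => by ring
      simp only [e1]
      have e2 : ∀ i, ∑ a, ∑ j, ∑ b, l j * ((mk ℂ fun k => c k r i a b) * mk ℂ fun k => Y k j i a b) =
          ∑ j, ∑ a, ∑ b, l j * ((mk ℂ fun k => c k r i a b) * mk ℂ fun k => Y k j i a b) := fun i => Finset.sum_comm
      simp only [e2]
      exact Finset.sum_comm
    have h8 : ∀ j, ∑ i, ∑ a, ∑ b, (mk ℂ fun k => c k r i a b) * (mk ℂ fun k => Y k j i a b) = if r = j then 1 else 0 := by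
      intro j
      have h9 : (fun k => pair (c k r) (Y k j)) = ∑ i, ∑ a, ∑ b, (fun k => c k r i a b) * fun k => Y k j i a b := by
        funext k
        simp only [pair, Finset.sum_apply, Pi.mul_apply]
      have h10 : mk ℂ (fun k => pair (c k r) (Y k j)) = if r = j then 1 else 0 := by
        simp only [hcY]
        split_ifs
        · exact map_one (mk ℂ)
        · exact map_zero (mk ℂ)
      rw [h9] at h10
      simpa only [map_sum, map_mul] using h10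
    rw [h7] at h5
    simp only [h8, mul_ite, mul_one, mul_zero, Finset.sum_ite_eq, Finset.mem_univ, if_true] at h5
    exact h5
  exact hl0 (funext hfin)

end Pool.Agent.H936.Z
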